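import Pool.Agent.Helper76.Jef.Lim
import Pool.Agent.Helper22.JefBk
import Pool.Agent.Helper22.JefTVar

/-! # Removal of the truncation when the defect vanishes (module P7) -/

open MeasureTheory Set Filter Topology
open scoped ENNReal NNReal ContDiff

namespace Pool.Agent.Helper63.Jef

open Pool.Agent.Helper42.Jef Pool.Agent.Helper76.Jef Pool.Agent.Helper22.Jef

set_option maxHeartbeats 1000000

variable {n : ℕ}

section gen

variable {α : Type*} [MeasurableSpace α] {μ : Measure α}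
variable {E F : Type*} [NormedAddCommGroup E] [InnerProductSpace ℝ E]
  [NormedAddCommGroup F] [InnerProductSpace ℝ F]

omit [InnerProductSpace ℝ E] [InnerProductSpace ℝ F] in
/-- Cauchy–Schwarz for norms -/
theorem cs {f : α → E} {g : α → F} (hf : MemLp f 2 μ) (hg : MemLp g 2 μ) :
    ∫ x, ‖f x‖ * ‖g x‖ ∂μ ≤ (eLpNorm f 2 μ).toReal * (eLpNorm g 2 μ).toReal := by
  have h3 := integral_inner_le (E := ℝ) hf.norm hg.norm
  have h4 : ∫ x, inner ℝ (‖f x‖ : ℝ) (‖g x‖ : ℝ) ∂μ = ∫ x, ‖f x‖ * ‖g x‖ ∂μ :=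
    integral_congr_ae (Eventually.of_forall fun x => by
      simp only [RCLike.inner_apply, conj_trivial]; ring)
  rw [h4, eLpNorm_norm, eLpNorm_norm] at h3
  exact (le_abs_self _).trans h3

theorem toReal_sq {f : α → E} (hf : MemLp f 2 μ) :
    (eLpNorm f 2 μ).toReal = Real.sqrt (∫ x, ‖f x‖ ^ 2 ∂μ) := by
  have h1 : ∫ x, ‖f x‖ ^ 2 ∂μ = (eLpNorm f 2 μ).toReal ^ 2 := by
    have h2 := inner_toLp hf hf
    rw [real_inner_self_eq_norm_sq, Lp.norm_toLp] at h2
    rw [h2]
    exact integral_congr_ae (Eventually.of_forall fun x => by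
      simp only [real_inner_self_eq_norm_sq])
  rw [h1, Real.sqrt_sq ENNReal.toReal_nonneg]

theorem memLp_bdd_smul {f : α → E} (hf : MemLp f 2 μ) {ζ : α → ℝ}
    (hζ : AEStronglyMeasurable ζ μ) {C : ℝ} (hC : ∀ x, |ζ x| ≤ C) :
    MemLp (fun x => ζ x • f x) 2 μ := by
  refine hf.of_le_mul (c := C) (hζ.smul hf.1) (Eventually.of_forall fun x => ?_)
  rw [norm_smul]
  exact mul_le_mul_of_nonneg_right (hC x) (norm_nonneg _)

/-- the weak limit of integrals of products with a fixed `L²` function -/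
theorem wc_smul_int [FiniteDimensional ℝ E] {u : ℕ → α → E} {U : α → E} (h : WC μ u U)
    {ζ : α → ℝ} (hζ : MemLp ζ 2 μ) :
    Tendsto (fun m => ∫ x, ζ x • u m x ∂μ) atTop (𝓝 (∫ x, ζ x • U x ∂μ)) :=
  wc_bilin_fixed h hζ ((ContinuousLinearMap.lsmul ℝ ℝ).flip : E →L[ℝ] ℝ →L[ℝ] E)

end gen

/-- the initial values: truncation removed -/
theorem ext0_lim {E : Type*} [NormedAddCommGroup E] [InnerProductSpace ℝ E]
    [FiniteDimensional ℝ E] {u0 : Eu n → E} (hu0 : MemLp u0 2 volume)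
    {uk : ℕ → ST n → E} {u : ST n → E} (huk : ∀ k, MemLp (uk k) 2 volume) (hu : MemLp u 2 volume)
    (hs : Tendsto (fun k => eLpNorm (fun z => uk k z - u z) 2 volume) atTop (𝓝 0))
    (hb : ∃ C : ℝ, ∀ k, eLpNorm (uk k) 2 volume ≤ ENNReal.ofReal C)
    {g : ST n → ℝ} (hg : MemLp g 2 volume) :
    Tendsto (fun k : ℕ => ∫ z, g z • ext0 (fun x => bk ((k : ℝ) + 1) (u0 x)) (uk k) z) atTop
      (𝓝 (∫ z, g z • ext0 u0 u z)) := by
  set i1 : ST n → ℝ := fun z => (Ioo (-1 : ℝ) 0).indicator (fun _ => (1 : ℝ)) z.1 with hi1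
  set i2 : ST n → ℝ := fun z => (Ioo (-1 : ℝ) 0)ᶜ.indicator (fun _ => (1 : ℝ)) z.1 with hi2
  have mi1 : MemLp ((Ioo (-1 : ℝ) 0).indicator fun _ => (1 : ℝ)) 2 volume :=
    memLp_indicator_const 2 measurableSet_Ioo 1 (Or.inr (by simp))
  have h1 : MemLp (fun z : ST n => i1 z • u0 z.2) 2 volume := memLp_prod_smul mi1 hu0
  have hbk : ∀ k : ℕ, MemLp (fun x => bk ((k : ℝ) + 1) (u0 x)) 2 volume := fun k =>
    hu0.of_le ((bk_contDiff _).continuous.comp_aestronglyMeasurable hu0.1)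
      (Eventually.of_forall fun x => bk_norm_le _ _)
  have h1k : ∀ k : ℕ, MemLp (fun z : ST n => i1 z • bk ((k : ℝ) + 1) (u0 z.2)) 2 volume :=
    fun k => memLp_prod_smul mi1 (hbk k)
  have mi2 : AEStronglyMeasurable i2 volume :=
    ((measurable_const.indicator measurableSet_Ioo.compl).comp
        measurable_fst).aestronglyMeasurable
  have hi2b : ∀ z, |i2 z| ≤ 1 := by
    intro z
    by_cases hz : z.1 ∈ (Ioo (-1 : ℝ) 0)ᶜ
    · simp only [hi2]; rw [indicator_of_mem hz]; simp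
    · simp only [hi2]; rw [indicator_of_notMem hz]; simp
  have hg2 : MemLp (fun z => i2 z • g z) 2 volume := memLp_bdd_smul hg mi2 hi2b
  have e : ∀ (a : Eu n → E) (b : ST n → E), MemLp (fun z : ST n => i1 z • a z.2) 2 volume →
      MemLp b 2 volume → ∫ z, g z • ext0 a b z =
        (∫ z, g z • (i1 z • a z.2)) + ∫ z, (i2 z • g z) • b z := by
    intro a b ha hb
    rw [← integral_add (smul_int2 hg ha) (smul_int2 hg2 hb)]
    refine integral_congr_ae (Eventually.of_forall fun z => ?_)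
    simp only
    rw [ext0_eq, smul_add]
    congr 1
    simp only [smul_smul, smul_eq_mul]
    rw [mul_comm]
  have e2 : (fun k : ℕ => ∫ z, g z • ext0 (fun x => bk ((k : ℝ) + 1) (u0 x)) (uk k) z) =
      fun k : ℕ => (∫ z, g z • (i1 z • bk ((k : ℝ) + 1) (u0 z.2))) +
        ∫ z, (i2 z • g z) • uk k z := by
    funext k
    exact e (fun x => bk ((k : ℝ) + 1) (u0 x)) (uk k) (h1k k) (huk k)
  rw [e2, e u0 u h1 hu]
  refine Tendsto.add ?_ ?_
  · refine tendsto_integral_of_dominated_convergence (fun z => ‖g z‖ * ‖i1 z • u0 z.2‖)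
      (fun k => (smul_int2 hg (h1k k)).1) (hg.norm.integrable_mul h1.norm)
      (fun k => Eventually.of_forall fun z => ?_) (Eventually.of_forall fun z => ?_)
    · rw [norm_smul, norm_smul, norm_smul]
      exact mul_le_mul_of_nonneg_left (mul_le_mul_of_nonneg_left (bk_norm_le _ _)
        (norm_nonneg _)) (norm_nonneg _)
    · refine Tendsto.const_smul (Tendsto.const_smul ?_ _) _
      rw [tendsto_iff_norm_sub_tendsto_zero]
      have h3 : Tendsto (fun k : ℕ => ‖u0 z.2‖ ^ 2 / ((k : ℝ) + 1)) atTop (𝓝 0) :=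
        tendsto_const_nhds.div_atTop
          (tendsto_atTop_add_const_right _ _ tendsto_natCast_atTop_atTop)
      refine squeeze_zero (fun k => norm_nonneg _) (fun k => ?_) h3
      rw [norm_sub_rev]
      exact bk_sub_le (by positivity) _
  · exact wc_smul_int (wc_of_strong huk hu hs hb) hg2

theorem te_final {T a c M : ℝ} (hT : 0 < T) {v : ST n → Eu n} (hv : MemLp v 2 volume)
    {τs Gs Ss : ℕ → ST n → Mt n} {τ G : ST n → Mt n} {tk : ℕ → ST n → Mt n} {ta : ℕ → ST n → ℝ}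
    (hTV : TV volume τs τ tk ta) (wG : WC volume Gs G)
    (hτM : ∀ m, eLpNorm (τs m) 2 volume ≤ ENNReal.ofReal M)
    (hGM : ∀ m, eLpNorm (Gs m) 2 volume ≤ ENNReal.ofReal M)
    (hS : ∀ m, MemLp (Ss m) 2 volume) (hSM : ∀ m, eLpNorm (Ss m) 2 volume ≤ ENNReal.ofReal M)
    (wS : WC volume Ss (fun z => sp (G z)))
    {A : ST n → ℝ} (hA : Integrable A) (hAτ : ∀ᵐ z, A z = ‖τ z‖ ^ 2)
    (hb : ∀ᵐ z, ∀ k : ℕ, ‖tk k z‖ ^ 2 ≤ ta k z ∧ ta k z ≤ A z)
    (hstr : Tendsto (fun k => eLpNorm (fun z => tk k z - τ z) 2 volume) atTop (𝓝 0))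
    {F D : ℕ → ST n → Mt n}
    (hF : ∀ k : ℕ, WC volume (fun m z => fderiv ℝ (bk ((k : ℝ) + 1)) (τs m z)
      (c • sy (Gs m z) - a • τs m z)) (F k))
    (hD : ∀ k : ℕ, WC volume (fun m z => br (bk ((k : ℝ) + 1) (τs m z)) (Ss m z)) (D k))
    {τ0 : Eu n → Mt n} (hτ0 : MemLp τ0 2 volume)
    (hTE : ∀ k : ℕ, TE T v (ext0 (fun x => bk ((k : ℝ) + 1) (τ0 x)) (tk k))
      (fun z => F k z - D k z)) :
    TE T v (ext0 τ0 τ) (fun z => c • sy (G z) - a • τ z - br (τ z) (sp (G z))) := by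
  intro η ψ hη hψ
  -- constants
  set C : ℝ := max M 0 with hC
  have hC0 : 0 ≤ C := le_max_right _ _
  have hMC : ∀ {x : ℝ≥0∞}, x ≤ ENNReal.ofReal M → x.toReal ≤ C := fun {x} hx =>
    ENNReal.toReal_le_of_le_ofReal hC0 (hx.trans (ENNReal.ofReal_le_ofReal (le_max_left _ _)))
  -- memberships
  have mτ : MemLp τ 2 volume := hTV.w.memU
  have mτs : ∀ m, MemLp (τs m) 2 volume := hTV.w.mem
  have mG : MemLp G 2 volume := wG.memU
  have mtk : ∀ k, MemLp (tk k) 2 volume := fun k => (hTV.wk k).memU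
  have msG : MemLp (fun z => sy (G z)) 2 volume := (syL n).comp_memLp' mG
  have mspG : MemLp (fun z => sp (G z)) 2 volume := wS.memU
  have mΦ : MemLp (fun z => c • sy (G z) - a • τ z) 2 volume :=
    (msG.const_smul c).sub (mτ.const_smul a)
  have wΦ : WC volume (fun m z => c • sy (Gs m z) - a • τs m z)
      (fun z => c • sy (G z) - a • τ z) :=
    ((wc_clm wG (syL n)).const_smul c).sub (hTV.w.const_smul a)
  -- the test functions
  set g : ST n → ℝ := fun z => deriv η z.1 * ψ z.2 + η z.1 * fderiv ℝ ψ z.2 (v z) with hg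
  set ζ : ST n → ℝ := fun z => η z.1 * ψ z.2 with hζ
  have m1 : MemLp (fun z : ST n => deriv η z.1 * ψ z.2) 2 volume :=
    memLp_test (E := ℝ) hη.dcont hη.cpt.deriv hψ.smooth.continuous hψ.cpt
  have m2 : MemLp (fun z : ST n => η z.1 * fderiv ℝ ψ z.2 (v z)) 2 volume :=
    (strong_D (vs := fun _ => v) (fun _ => hv) hv (by simp) hη.cont hη.cpt hψ.smooth
      hψ.cpt).2.1
  have mζ : MemLp ζ 2 volume :=
    memLp_test (E := ℝ) hη.cont hη.cpt hψ.smooth.continuous hψ.cpt
  have mg : MemLp g 2 volume := m1.add m2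
  obtain ⟨C1, hC1⟩ := hη.bounded.1
  obtain ⟨C2, hC2⟩ := hψ.smooth.continuous.bounded_above_of_compact_support hψ.cpt
  have hζb : ∀ z, |ζ z| ≤ C1 * C2 := by
    intro z
    rw [hζ]
    simp only
    rw [abs_mul]
    exact mul_le_mul (hC1 _) (hC2 _) (abs_nonneg _) ((abs_nonneg _).trans (hC1 0))
  set L : ℝ := C1 * C2 with hL
  have hL0 : 0 ≤ L := (abs_nonneg _).trans (hζb 0)
  -- integrability of brackets
  have ibr : ∀ {X Y : ST n → Mt n}, MemLp X 2 volume → MemLp Y 2 volume →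
      Integrable (fun z => ζ z • br (X z) (Y z)) := by
    intro X Y hX hY
    have h1 : Integrable (fun z => br (X z) (Y z)) volume := by
      have h2 : Integrable (fun x => ‖X x‖ * ‖Y x‖) volume := hX.norm.integrable_mul hY.norm
      refine (h2.const_mul 2).mono' ((brL n).aestronglyMeasurable_comp₂ hX.1 hY.1)
        (Eventually.of_forall fun x => norm_br_le _ _)
    exact h1.bdd_smul L mζ.1 (Eventually.of_forall fun z => hζb z)
  -- (1) the transported quantity
  have htkb : ∃ C : ℝ, ∀ k, eLpNorm (tk k) 2 volume ≤ ENNReal.ofReal C := by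
    refine ⟨Real.sqrt (∫ z, A z), fun k => ?_⟩
    have h2 : (eLpNorm (tk k) 2 volume).toReal ≤ Real.sqrt (∫ z, A z) := by
      rw [toReal_sq (mtk k)]
      refine Real.sqrt_le_sqrt (integral_mono_ae ((mtk k).integrable_norm_pow (by simp)) hA ?_)
      filter_upwards [hb] with z hz
      exact (hz k).1.trans (hz k).2
    rw [← ENNReal.ofReal_toReal (mtk k).2.ne]
    exact ENNReal.ofReal_le_ofReal h2
  have t1 := ext0_lim (n := n) hτ0 mtk mτ hstr htkb mg
  have mext : ∀ (a : Eu n → Mt n) (b : ST n → Mt n), MemLp a 2 volume → MemLp b 2 volume →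
      MemLp (ext0 a b) 2 volume := fun a b ha hb' => (wc_ext0 (wc_const hb') ha).memU
  -- (2) the source
  have t2 : Tendsto (fun k => ∫ z, ζ z • F k z) atTop
      (𝓝 (∫ z, ζ z • (c • sy (G z) - a • τ z))) := by
    rw [tendsto_iff_norm_sub_tendsto_zero]
    set K : ℝ := L * (2 * (C * (|c| * C + |a| * C))) with hK
    have h3 : Tendsto (fun k : ℕ => K / ((k : ℝ) + 1)) atTop (𝓝 0) :=
      tendsto_const_nhds.div_atTop
        (tendsto_atTop_add_const_right _ _ tendsto_natCast_atTop_atTop)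
    refine squeeze_zero (fun k => norm_nonneg _) (fun k => ?_) h3
    have hk : (0 : ℝ) < (k : ℝ) + 1 := by positivity
    have l1 := wc_smul_int (hF k) mζ
    have l2 := wc_smul_int wΦ mζ
    refine le_of_tendsto (l1.sub l2).norm (Eventually.of_forall fun m => ?_)
    have mΦm : MemLp (fun z => c • sy (Gs m z) - a • τs m z) 2 volume := wΦ.mem m
    rw [← integral_sub (smul_int2 mζ ((hF k).mem m)) (smul_int2 mζ (wΦ.mem m))]
    refine (norm_integral_le_integral_norm _).trans ?_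
    have hn : ∀ z, ‖ζ z • (fderiv ℝ (bk ((k : ℝ) + 1)) (τs m z))
        (c • sy (Gs m z) - a • τs m z) - ζ z • (c • sy (Gs m z) - a • τs m z)‖ ≤
        (L * 2 / ((k : ℝ) + 1)) * (‖τs m z‖ * ‖c • sy (Gs m z) - a • τs m z‖) := by
      intro z
      rw [← smul_sub, norm_smul]
      have h5 := bk_fderiv_sub_le hk (τs m z) (c • sy (Gs m z) - a • τs m z)
      calc ‖ζ z‖ * ‖(fderiv ℝ (bk ((k : ℝ) + 1)) (τs m z))
              (c • sy (Gs m z) - a • τs m z) - (c • sy (Gs m z) - a • τs m z)‖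
          ≤ L * (2 * (‖τs m z‖ / ((k : ℝ) + 1)) * ‖c • sy (Gs m z) - a • τs m z‖) :=
            mul_le_mul (hζb z) h5 (norm_nonneg _) hL0
        _ = _ := by ring
    have hint : Integrable (fun z => (L * 2 / ((k : ℝ) + 1)) *
        (‖τs m z‖ * ‖c • sy (Gs m z) - a • τs m z‖)) :=
      ((mτs m).norm.integrable_mul mΦm.norm).const_mul _
    refine (integral_mono (((smul_int2 mζ ((hF k).mem m)).sub
      (smul_int2 mζ (wΦ.mem m))).norm) hint hn).trans ?_
    rw [integral_const_mul]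
    have h6 : (eLpNorm (fun z => c • sy (Gs m z) - a • τs m z) 2 volume).toReal ≤
        |c| * C + |a| * C := by
      refine ENNReal.toReal_le_of_le_ofReal (by positivity) ?_
      have h7 : eLpNorm (fun z => c • sy (Gs m z)) 2 volume ≤ ENNReal.ofReal (|c| * C) := by
        rw [ENNReal.ofReal_mul (abs_nonneg _)]
        refine (eLpNorm_le_mul_eLpNorm_of_ae_le_mul (g := Gs m) (c := |c|)
          (Eventually.of_forall fun x => ?_) 2).trans ?_
        · rw [norm_smul]
          exact mul_le_mul_of_nonneg_left (norm_sy_le _) (abs_nonneg _)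
        · exact mul_le_mul' le_rfl ((hGM m).trans (ENNReal.ofReal_le_ofReal (le_max_left _ _)))
      have h8 : eLpNorm (fun z => a • τs m z) 2 volume ≤ ENNReal.ofReal (|a| * C) := by
        rw [ENNReal.ofReal_mul (abs_nonneg _)]
        refine (eLpNorm_le_mul_eLpNorm_of_ae_le_mul (g := τs m) (c := |a|)
          (Eventually.of_forall fun x => ?_) 2).trans ?_
        · rw [norm_smul]; rfl
        · exact mul_le_mul' le_rfl ((hτM m).trans (ENNReal.ofReal_le_ofReal (le_max_left _ _)))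
      rw [ENNReal.ofReal_add (by positivity) (by positivity)]
      refine (eLpNorm_sub_le ?_ ?_ (by norm_num)).trans (add_le_add h7 h8)
      · exact (((syL n).comp_memLp' (wG.mem m)).const_smul c).1
      · exact ((mτs m).const_smul a).1
    have h9 : ∫ z, ‖τs m z‖ * ‖c • sy (Gs m z) - a • τs m z‖ ≤ C * (|c| * C + |a| * C) :=
      (cs (mτs m) mΦm).trans (mul_le_mul (hMC (hτM m)) h6 ENNReal.toReal_nonneg hC0)
    calc (L * 2 / ((k : ℝ) + 1)) * ∫ z, ‖τs m z‖ * ‖c • sy (Gs m z) - a • τs m z‖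
        ≤ (L * 2 / ((k : ℝ) + 1)) * (C * (|c| * C + |a| * C)) :=
          mul_le_mul_of_nonneg_left h9 (by positivity)
      _ = K / ((k : ℝ) + 1) := by rw [hK]; ring
  -- (3) the bracket
  have mζ2 : MemLp (fun z => ζ z ^ 2) 2 volume := by
    have := memLp_bdd_smul mζ mζ.1 hζb
    refine this.ae_eq (Eventually.of_forall fun z => ?_)
    simp only [smul_eq_mul]; ring
  have hζ2b : ∀ z, |ζ z ^ 2| ≤ L ^ 2 := by
    intro z
    rw [abs_of_nonneg (sq_nonneg _), ← sq_abs]
    exact pow_le_pow_left₀ (abs_nonneg _) (hζb z) 2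
  have wtk : WC volume tk τ := wc_of_strong mtk mτ hstr htkb
  have mspS : ∀ m, MemLp (Ss m) 2 volume := hS
  set Y : ℕ → ℝ := fun k => (∫ z, ζ z ^ 2 * A z) - ∫ z, ζ z ^ 2 * ‖tk k z‖ ^ 2 with hY
  have tY : Tendsto Y atTop (𝓝 0) := by
    have l1 := wc_mul_strong wtk mtk mτ hstr (innerSL ℝ) (fun z => ζ z ^ 2) mζ2.1 (L ^ 2) hζ2b
    have l2 : Tendsto (fun k => ∫ z, ζ z ^ 2 * ‖tk k z‖ ^ 2) atTop
        (𝓝 (∫ z, ζ z ^ 2 * A z)) := by
      have e1 : ∫ z, ζ z ^ 2 * A z = ∫ z, ζ z ^ 2 • (innerSL ℝ (τ z)) (τ z) := by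
        refine integral_congr_ae ?_
        filter_upwards [hAτ] with z hz
        rw [hz, innerSL_apply_apply, real_inner_self_eq_norm_sq, smul_eq_mul]
      rw [e1]
      refine l1.congr fun k => ?_
      refine integral_congr_ae (Eventually.of_forall fun z => ?_)
      change ζ z ^ 2 • (inner ℝ (tk k z) (tk k z) : ℝ) = ζ z ^ 2 * ‖tk k z‖ ^ 2
      rw [real_inner_self_eq_norm_sq, smul_eq_mul]
    have := l2.const_sub (∫ z, ζ z ^ 2 * A z)
    simpa [hY] using this
  have hX : ∀ k : ℕ, ‖(∫ z, ζ z • D k z) - ∫ z, ζ z • br (tk k z) (sp (G z))‖ ≤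
      2 * (Real.sqrt (Y k) * C) := by
    intro k
    have l1 := wc_smul_int (hD k) mζ
    have mk : ∀ m, MemLp (fun z => bk ((k : ℝ) + 1) (τs m z)) 2 volume := (hTV.wk k).mem
    have mζtk : MemLp (fun z => ζ z • tk k z) 2 volume := memLp_bdd_smul (mtk k) mζ.1 hζb
    have l2 := wc_bilin_fixed wS mζtk (brL n).flip
    have l2' : Tendsto (fun m => ∫ z, ζ z • br (tk k z) (Ss m z)) atTop
        (𝓝 (∫ z, ζ z • br (tk k z) (sp (G z)))) := by
      have e : ∀ X : ST n → Mt n, ∫ z, (brL n).flip (X z) (ζ z • tk k z) =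
          ∫ z, ζ z • br (tk k z) (X z) := fun X =>
        integral_congr_ae (Eventually.of_forall fun z => by
          simp only [ContinuousLinearMap.flip_apply, brL_apply, br_smul_left])
      rw [e] at l2
      exact l2.congr fun m => e _
    -- the squares
    have l3 := (hTV.wa k).conv _ mζ2
    have mζ2tk : MemLp (fun z => ζ z ^ 2 • tk k z) 2 volume := memLp_bdd_smul (mtk k) mζ2.1 hζ2b
    have l4 := (hTV.wk k).conv _ mζ2tk
    have i5 : Integrable (fun z => ζ z ^ 2 * ‖tk k z‖ ^ 2) :=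
      integrable_bdd_mul ((mtk k).integrable_norm_pow (by simp)) mζ2.1 hζ2b
    have i6 : Integrable (fun z => ζ z ^ 2 * A z) := integrable_bdd_mul hA mζ2.1 hζ2b
    have e3 : ∀ m, ∫ z, ‖ζ z • (bk ((k : ℝ) + 1) (τs m z) - tk k z)‖ ^ 2 =
        (∫ z, inner ℝ (‖bk ((k : ℝ) + 1) (τs m z)‖ ^ 2) (ζ z ^ 2)) -
        2 * (∫ z, inner ℝ (bk ((k : ℝ) + 1) (τs m z)) (ζ z ^ 2 • tk k z)) +
        ∫ z, ζ z ^ 2 * ‖tk k z‖ ^ 2 := by
      intro m
      have j1 : Integrable (fun z => inner ℝ (‖bk ((k : ℝ) + 1) (τs m z)‖ ^ 2) (ζ z ^ 2)) :=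
        memLp_inner_integrable ((hTV.wa k).mem m) mζ2
      have j2 : Integrable (fun z => inner ℝ (bk ((k : ℝ) + 1) (τs m z)) (ζ z ^ 2 • tk k z)) :=
        memLp_inner_integrable ((hTV.wk k).mem m) mζ2tk
      have j12 : Integrable (fun z => inner ℝ (‖bk ((k : ℝ) + 1) (τs m z)‖ ^ 2) (ζ z ^ 2) -
          2 * inner ℝ (bk ((k : ℝ) + 1) (τs m z)) (ζ z ^ 2 • tk k z)) := j1.sub (j2.const_mul 2)
      rw [← integral_const_mul, ← integral_sub j1 (j2.const_mul 2), ← integral_add j12 i5]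
      refine integral_congr_ae (Eventually.of_forall fun z => ?_)
      simp only
      rw [norm_smul, mul_pow, norm_sub_sq_real, inner_smul_right, Real.norm_eq_abs, sq_abs,
        RCLike.inner_apply, conj_trivial]
      ring
    have l5 : Tendsto (fun m => ∫ z, ‖ζ z • (bk ((k : ℝ) + 1) (τs m z) - tk k z)‖ ^ 2) atTop
        (𝓝 ((∫ z, inner ℝ (ta k z) (ζ z ^ 2)) - 2 * (∫ z, inner ℝ (tk k z) (ζ z ^ 2 • tk k z)) +
          ∫ z, ζ z ^ 2 * ‖tk k z‖ ^ 2)) := by
      simp only [e3]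
      exact (l3.sub (l4.const_mul 2)).add_const _
    have hle : (∫ z, inner ℝ (ta k z) (ζ z ^ 2)) -
        2 * (∫ z, inner ℝ (tk k z) (ζ z ^ 2 • tk k z)) +
          ∫ z, ζ z ^ 2 * ‖tk k z‖ ^ 2 ≤ Y k := by
      have e4 : ∫ z, inner ℝ (tk k z) (ζ z ^ 2 • tk k z) = ∫ z, ζ z ^ 2 * ‖tk k z‖ ^ 2 :=
        integral_congr_ae (Eventually.of_forall fun z => by
          simp only [inner_smul_right, real_inner_self_eq_norm_sq])
      have e5 : ∫ z, inner ℝ (ta k z) (ζ z ^ 2) ≤ ∫ z, ζ z ^ 2 * A z := by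
        refine integral_mono_ae (memLp_inner_integrable (hTV.wa k).memU mζ2) i6 ?_
        filter_upwards [hb] with z hz
        simp only [RCLike.inner_apply, conj_trivial]
        exact mul_le_mul_of_nonneg_left (hz k).2 (sq_nonneg _)
      rw [e4, hY]
      simp only
      linarith
    have l6 := ((l5.sqrt).mul_const C).const_mul 2
    have hfin : ‖(∫ z, ζ z • D k z) - ∫ z, ζ z • br (tk k z) (sp (G z))‖ ≤
        2 * (Real.sqrt ((∫ z, inner ℝ (ta k z) (ζ z ^ 2)) -
        2 * (∫ z, inner ℝ (tk k z) (ζ z ^ 2 • tk k z)) +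
          ∫ z, ζ z ^ 2 * ‖tk k z‖ ^ 2) * C) := by
      refine le_of_tendsto_of_tendsto (l1.sub l2').norm l6 (Eventually.of_forall fun m => ?_)
      have j3 : Integrable (fun z => ζ z • br (bk ((k : ℝ) + 1) (τs m z)) (Ss m z)) :=
        ibr (mk m) (hS m)
      have j4 : Integrable (fun z => ζ z • br (tk k z) (Ss m z)) := ibr (mtk k) (hS m)
      have mdiff : MemLp (fun z => ζ z • (bk ((k : ℝ) + 1) (τs m z) - tk k z)) 2 volume :=
        memLp_bdd_smul ((mk m).sub (mtk k)) mζ.1 hζb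
      simp only
      rw [← integral_sub j3 j4]
      refine (norm_integral_le_integral_norm _).trans ?_
      have hn : ∀ z, ‖ζ z • br (bk ((k : ℝ) + 1) (τs m z)) (Ss m z) -
          ζ z • br (tk k z) (Ss m z)‖ ≤
          2 * (‖ζ z • (bk ((k : ℝ) + 1) (τs m z) - tk k z)‖ * ‖Ss m z‖) := by
        intro z
        rw [← smul_sub, ← br_sub_left, ← br_smul_left]
        exact norm_br_le _ _
      refine (integral_mono (j3.sub j4).norm
        ((mdiff.norm.integrable_mul (hS m).norm).const_mul 2) hn).trans ?_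
      rw [integral_const_mul]
      refine mul_le_mul_of_nonneg_left ((cs mdiff (hS m)).trans ?_) (by norm_num)
      rw [toReal_sq mdiff]
      exact mul_le_mul_of_nonneg_left (hMC (hSM m)) (Real.sqrt_nonneg _)
    refine hfin.trans ?_
    exact mul_le_mul_of_nonneg_left (mul_le_mul_of_nonneg_right (Real.sqrt_le_sqrt hle) hC0)
      (by norm_num)
  have t3 : Tendsto (fun k => ∫ z, ζ z • D k z) atTop
      (𝓝 (∫ z, ζ z • br (τ z) (sp (G z)))) := by
    have mζsp : MemLp (fun z => ζ z • sp (G z)) 2 volume := memLp_bdd_smul mspG mζ.1 hζb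
    have l1 := wc_bilin_fixed wtk mζsp (brL n)
    have l1' : Tendsto (fun k => ∫ z, ζ z • br (tk k z) (sp (G z))) atTop
        (𝓝 (∫ z, ζ z • br (τ z) (sp (G z)))) := by
      have e : ∀ X : ST n → Mt n, ∫ z, (brL n) (X z) (ζ z • sp (G z)) =
          ∫ z, ζ z • br (X z) (sp (G z)) := fun X =>
        integral_congr_ae (Eventually.of_forall fun z => by
          simp only [brL_apply, br_smul_right])
      rw [e] at l1
      exact l1.congr fun m => e _
    have l2 : Tendsto (fun k => (∫ z, ζ z • D k z) - ∫ z, ζ z • br (tk k z) (sp (G z))) atTop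
        (𝓝 0) := by
      refine squeeze_zero_norm hX ?_
      have := ((tY.sqrt).mul_const C).const_mul 2
      simpa using this
    have l3 := l2.add l1'
    simpa using l3
  have t4 := t1.add (t2.sub t3)
  have e0 : ∀ k : ℕ, (∫ z, g z • ext0 (fun x => bk ((k : ℝ) + 1) (τ0 x)) (tk k) z) +
      ((∫ z, ζ z • F k z) - ∫ z, ζ z • D k z) = 0 := by
    intro k
    have j1 : Integrable (fun z => g z • ext0 (fun x => bk ((k : ℝ) + 1) (τ0 x)) (tk k) z) := by
      refine smul_int2 mg (mext _ (tk k) ?_ (mtk k))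
      exact hτ0.of_le ((bk_contDiff _).continuous.comp_aestronglyMeasurable hτ0.1)
        (Eventually.of_forall fun x => bk_norm_le _ _)
    have j2 := smul_int2 mζ (hF k).memU
    have j3 := smul_int2 mζ (hD k).memU
    have j23 : Integrable (fun z => ζ z • F k z - ζ z • D k z) := j2.sub j3
    rw [← integral_sub j2 j3, ← integral_add j1 j23, ← hTE k η ψ hη hψ]
    refine integral_congr_ae (Eventually.of_forall fun z => ?_)
    simp only [smul_sub, hg, hζ]
  have e1 := tendsto_nhds_unique t4 (by simp only [e0]; exact tendsto_const_nhds)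
  have j1 : Integrable (fun z => g z • ext0 τ0 τ z) := smul_int2 mg (mext _ τ hτ0 mτ)
  have j2 := smul_int2 mζ mΦ
  have j3 := ibr mτ mspG
  have j23 : Integrable (fun z => ζ z • (c • sy (G z) - a • τ z) - ζ z • br (τ z) (sp (G z))) :=
    j2.sub j3
  rw [← integral_sub j2 j3, ← integral_add j1 j23] at e1
  rw [← e1]
  refine integral_congr_ae (Eventually.of_forall fun z => ?_)
  simp only [smul_sub, hg, hζ]

end Pool.Agent.Helper63.Jef
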