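import Mathlib

namespace Pool.Agent.Helper63.IMeager

open Classical in
/-- The characteristic function of a set of natural numbers, a point of the Cantor space. -/
noncomputable def charFun (a : Set ℕ) : ℕ → Bool := fun n => decide (n ∈ a)

/-- The least cardinality of a nonmeager subset of the Cantor space. -/
noncomputable def nonMeager : Cardinal.{0} :=
  sInf {κ | ∃ S : Set (ℕ → Bool), ¬ IsMeagre S ∧ Cardinal.mk S = κ}

/-- Independent families of infinite subsets of the natural numbers. -/
def IsIndependentFamily (A : Set (Set ℕ)) : Prop :=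
  (∀ a ∈ A, a.Infinite) ∧
    ∀ F G : Set (Set ℕ), F ⊆ A → G ⊆ A → F.Finite → G.Finite → Disjoint F G →
      (F ∪ G).Nonempty → ((⋂₀ F) \ (⋃₀ G)).Infinite

/-- The least cardinality of a nonmeager independent family. -/
noncomputable def iMeager : Cardinal.{0} :=
  sInf {κ | ∃ A : Set (Set ℕ), IsIndependentFamily A ∧ ¬ IsMeagre (charFun '' A) ∧
    Cardinal.mk A = κ}

end Pool.Agent.Helper63.IMeager
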