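import Mathlib

open Set Filter Topology

namespace Pool.Agent.Helper63.NonMeager

/-- flipping homeomorphism -/
def flip (u : ℕ → Bool) : (ℕ → Bool) ≃ₜ (ℕ → Bool) where
  toFun x := fun n => xor (x n) (u n)
  invFun x := fun n => xor (x n) (u n)
  left_inv x := by funext n; simp
  right_inv x := by funext n; simp
  continuous_toFun := continuous_pi fun n =>
    (continuous_of_discreteTopology (f := fun b : Bool => xor b (u n))).comp (continuous_apply n)
  continuous_invFun := continuous_pi fun n =>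
    (continuous_of_discreteTopology (f := fun b : Bool => xor b (u n))).comp (continuous_apply n)

theorem finite_supp {S : Set ℕ} (hS : S.Finite) : {u : ℕ → Bool | ∀ n, n ∉ S → u n = false}.Finite := by
  have := hS.to_subtype
  refine Set.Finite.of_injOn (f := fun (u : ℕ → Bool) (n : S) => u n) (t := Set.univ) ?_ ?_ Set.finite_univ
  · intro u _; trivial
  · intro u hu v hv h
    funext n
    by_cases hn : n ∈ S
    · exact congrFun h ⟨n, hn⟩
    · rw [hu n hn, hv n hn]

theorem open_cyl {U : Set (ℕ → Bool)} (hU : IsOpen U) {w : ℕ → Bool} (hw : w ∈ U) :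
    ∃ E : Finset ℕ, ∀ x : ℕ → Bool, (∀ n ∈ E, x n = w n) → x ∈ U := by
  obtain ⟨I, u, hu, hsub⟩ := isOpen_pi_iff.1 hU w hw
  refine ⟨I, fun x hx => hsub ?_⟩
  intro n hn
  rw [hx n hn]
  exact (hu n hn).2

theorem cyl_open (E : Finset ℕ) (w : ℕ → Bool) : IsOpen {x : ℕ → Bool | ∀ n ∈ E, x n = w n} := by
  have : {x : ℕ → Bool | ∀ n ∈ E, x n = w n} = ⋂ n ∈ E, {x : ℕ → Bool | x n = w n} := by
    ext x; simp
  rw [this]
  refine isOpen_biInter_finset fun n _ => ?_
  have h : {x : ℕ → Bool | x n = w n} = (fun x : ℕ → Bool => x n) ⁻¹' {w n} := rfl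
  rw [h]
  exact (isOpen_discrete ({w n} : Set Bool)).preimage (continuous_apply (A := fun _ : ℕ => Bool) n)

variable {blk : ℕ → ℕ} (hblk : ∀ N, {n | blk n < N}.Finite)

include hblk

theorem step {U : Set (ℕ → Bool)} (hU : IsOpen U) (hd : Dense U) (N : ℕ) :
    ∃ (N' : ℕ) (w : ℕ → Bool), N < N' ∧
      ∀ x : ℕ → Bool, (∀ n, N ≤ blk n → blk n < N' → x n = w n) → x ∈ U := by
  set S : Set ℕ := {n | blk n < N} with hSdef
  set 𝒰 : Set (ℕ → Bool) := {u | ∀ n, n ∉ S → u n = false} with h𝒰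
  have hfin : 𝒰.Finite := finite_supp (hblk N)
  have hopen : IsOpen (⋂ u ∈ 𝒰, flip u ⁻¹' U) :=
    hfin.isOpen_biInter fun u _ => hU.preimage (flip u).continuous
  have hdense : Dense (⋂ u ∈ 𝒰, flip u ⁻¹' U) :=
    dense_biInter_of_isOpen (fun u _ => hU.preimage (flip u).continuous) hfin.countable
      (fun u _ => hd.preimage (flip u).isOpenMap)
  obtain ⟨w, hw⟩ := hdense.nonempty
  obtain ⟨E, hE⟩ := open_cyl hopen hw
  refine ⟨max (N+1) (E.sup blk + 1), w, by simp, ?_⟩
  intro x hx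
  classical
  let u : ℕ → Bool := fun n => if n ∈ S then xor (x n) (w n) else false
  have hu : u ∈ 𝒰 := by intro n hn; simp [u, hn]
  have h1 : (flip u x) ∈ ⋂ u ∈ 𝒰, flip u ⁻¹' U := by
    apply hE
    intro n hn
    by_cases hS : n ∈ S
    · simp [flip, u, hS]
    · have h2 : N ≤ blk n := by
        have : ¬ blk n < N := hS
        omega
      have h3 : blk n < max (N+1) (E.sup blk + 1) := by
        have := Finset.le_sup (f := blk) hn
        omega
      have := hx n h2 h3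
      simp [flip, u, hS, this]
  have h4 := Set.mem_iInter₂.1 h1 u hu
  have h5 : flip u (flip u x) = x := (flip u).left_inv x
  rw [Set.mem_preimage, h5] at h4
  exact h4


theorem meagre_char {M : Set (ℕ → Bool)} (hM : IsMeagre M) :
    ∃ (N : ℕ → ℕ) (w : ℕ → Bool), StrictMono N ∧
      ∀ x ∈ M, ∃ K, ∀ k ≥ K, ∃ n, N k ≤ blk n ∧ blk n < N (k+1) ∧ x n ≠ w n := by
  obtain ⟨t, ht, hG, hd⟩ := mem_residual.1 hM
  obtain ⟨U, hU, rfl⟩ := hG.eq_iInter_nat
  have hUd : ∀ i, Dense (U i) := fun i => hd.mono (Set.iInter_subset U i)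
  let V : ℕ → Set (ℕ → Bool) := fun k => ⋂ i ∈ Finset.range (k+1), U i
  have hVo : ∀ k, IsOpen (V k) := fun k => isOpen_biInter_finset fun i _ => hU i
  have hVd : ∀ k, Dense (V k) := fun k => by
    refine hd.mono ?_
    intro x hx
    simp only [V, Set.mem_iInter]
    intro i _
    exact Set.mem_iInter.1 hx i
  choose N' w' hlt hst using fun (k N : ℕ) => step hblk (hVo k) (hVd k) N
  obtain ⟨N, hN⟩ : ∃ N : ℕ → ℕ, ∀ k, N (k+1) = N' k (N k) :=
    ⟨fun k => Nat.rec 0 (fun k r => N' k r) k, fun _ => rfl⟩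
  have hmono : StrictMono N := strictMono_nat_of_lt_succ fun k => by rw [hN]; exact hlt k (N k)
  have hex : ∀ n, ∃ b : Bool, ∀ k, N k ≤ blk n → blk n < N (k+1) → b = w' k (N k) n := by
    intro n
    by_cases h : ∃ k : ℕ, N k ≤ blk n ∧ blk n < N (k+1)
    · obtain ⟨k, h1, h2⟩ := h
      refine ⟨w' k (N k) n, fun l h3 h4 => ?_⟩
      have h5 : k = l := by
        by_contra hne
        rcases lt_or_gt_of_ne hne with hl | hl
        · have := hmono.monotone (show k + 1 ≤ l by omega)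
          omega
        · have := hmono.monotone (show l + 1 ≤ k by omega)
          omega
      rw [h5]
    · exact ⟨false, fun l h3 h4 => absurd ⟨l, h3, h4⟩ h⟩
  choose w hw' using hex
  have hw : ∀ k n, N k ≤ blk n → blk n < N (k+1) → w n = w' k (N k) n := fun k n => hw' n k
  refine ⟨N, w, hmono, fun x hx => ?_⟩
  have hx' : x ∉ ⋂ i, U i := fun h => ht h hx
  simp only [Set.mem_iInter, not_forall] at hx'
  obtain ⟨i, hi⟩ := hx'
  refine ⟨i, fun k hk => ?_⟩
  by_contra hcon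
  push Not at hcon
  have : x ∈ V k := by
    apply hst k (N k)
    intro n h1 h2
    have h2' : blk n < N (k+1) := by rw [hN]; exact h2
    rw [hcon n h1 h2', hw k n h1 h2']
  simp only [V, Set.mem_iInter, Finset.mem_range] at this
  exact hi (this i (by omega))

theorem comeagre_match (N : ℕ → ℕ) (hN : StrictMono N) (w : ℕ → Bool) (I : Set ℕ) (hI : I.Infinite) :
    {y : ℕ → Bool | {k ∈ I | ∀ n, N k ≤ blk n → blk n < N (k+1) → y n = w n}.Infinite} ∈ residual (ℕ → Bool) := by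
  let C : ℕ → Set (ℕ → Bool) := fun k => {y | ∀ n, N k ≤ blk n → blk n < N (k+1) → y n = w n}
  have hCo : ∀ k, IsOpen (C k) := by
    intro k
    have hf : {n | N k ≤ blk n ∧ blk n < N (k+1)}.Finite := (hblk (N (k+1))).subset fun n hn => hn.2
    have := cyl_open hf.toFinset w
    convert this using 1
    ext y
    simp [C]
  have hres : ∀ m, (⋃ k ∈ {k ∈ I | m ≤ k}, C k) ∈ residual (ℕ → Bool) := by
    intro m
    refine residual_of_dense_open (isOpen_biUnion fun k _ => hCo k) ?_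
    rw [dense_iff_inter_open]
    rintro O hO ⟨y, hy⟩
    obtain ⟨E, hE⟩ := open_cyl hO hy
    obtain ⟨k, hkI, hk⟩ := hI.exists_gt (max m (E.sup blk))
    classical
    refine ⟨fun n => if N k ≤ blk n ∧ blk n < N (k+1) then w n else y n, hE _ ?_, ?_⟩
    · intro n hn
      have h1 := Finset.le_sup (f := blk) hn
      have h2 := hN.id_le k
      have h3 : ¬ (N k ≤ blk n ∧ blk n < N (k+1)) := by
        rintro ⟨h4, -⟩
        simp only [id] at h2
        omega
      simp [h3]
    · simp only [Set.mem_iUnion]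
      refine ⟨k, ⟨hkI, by omega⟩, ?_⟩
      intro n h1 h2
      simp [h1, h2]
  refine mem_of_superset (countable_iInter_mem.2 hres) ?_
  intro y hy
  simp only [Set.mem_iInter, Set.mem_iUnion] at hy
  refine Set.infinite_of_forall_exists_gt fun m => ?_
  obtain ⟨k, ⟨hkI, hk⟩, hy⟩ := hy (m+1)
  exact ⟨k, ⟨hkI, hy⟩, by omega⟩


omit hblk

theorem fam_case1 {κ : Cardinal.{0}} (D : Set (ℕ → ℕ)) (hD : Cardinal.mk D ≤ κ)
    (hdom : ∀ f : ℕ → ℕ, ∃ d ∈ D, ∀ᶠ n in atTop, f n ≤ d n) :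
    ∃ (ι : Type) (A : ι → Set ℕ), Cardinal.mk ι ≤ κ ∧
      (∀ s : Finset ι, {n | ∀ i ∈ s, n ∉ A i}.Infinite) ∧
      (∀ N : ℕ → ℕ, StrictMono N → ∃ i, {k | ∀ n, N k ≤ n → n < N (k+1) → n ∈ A i}.Infinite) := by
  obtain ⟨P, hP0, hP⟩ : ∃ P : (ℕ → ℕ) → ℕ → ℕ, (∀ d, P d 0 = 0) ∧
      ∀ d k, P d (k+1) = max (d (P d k)) (P d k + 1) :=
    ⟨fun d k => Nat.rec 0 (fun _ r => max (d r) (r+1)) k, fun _ => rfl, fun _ _ => rfl⟩
  have hPm : ∀ d, StrictMono (P d) := fun d => strictMono_nat_of_lt_succ fun k => by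
    rw [hP]; omega
  let E : (ℕ → ℕ) → Set ℕ := fun d => {n | ∃ j, P d (2*j) ≤ n ∧ n < P d (2*j+1)}
  have huniq : ∀ d n j l, P d j ≤ n → n < P d (j+1) → P d l ≤ n → n < P d (l+1) → j = l := by
    intro d n j l h1 h2 h3 h4
    by_contra hne
    rcases lt_or_gt_of_ne hne with hl | hl
    · have := (hPm d).monotone (show j + 1 ≤ l by omega)
      omega
    · have := (hPm d).monotone (show l + 1 ≤ j by omega)
      omega
  have hO : ∀ d n j, P d (2*j+1) ≤ n → n < P d (2*j+2) → n ∈ (E d)ᶜ := by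
    rintro d n j h1 h2 ⟨l, h3, h4⟩
    have := huniq d n (2*j+1) (2*l) h1 h2 h3 h4
    omega
  classical
  let A : (ℕ → ℕ) → Set ℕ := fun d => if E d ∈ (hyperfilter ℕ : Filter ℕ) then (E d)ᶜ else E d
  have hA : ∀ d, A d ∉ (hyperfilter ℕ : Filter ℕ) := by
    intro d
    by_cases h : E d ∈ (hyperfilter ℕ : Filter ℕ)
    · simp only [A, if_pos h]
      exact Ultrafilter.compl_notMem_iff.2 h
    · simp only [A, if_neg h]
      exact h
  have hA2 : ∀ d, ∃ e : ℕ, ∀ j n, P d (2*j+e) ≤ n → n < P d (2*j+e+1) → n ∈ A d := by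
    intro d
    by_cases h : E d ∈ (hyperfilter ℕ : Filter ℕ)
    · refine ⟨1, fun j n h1 h2 => ?_⟩
      simp only [A, if_pos h]
      exact hO d n j h1 h2
    · refine ⟨0, fun j n h1 h2 => ?_⟩
      simp only [A, if_neg h]
      exact ⟨j, h1, h2⟩
  refine ⟨D, fun d => A d, hD, ?_, ?_⟩
  · intro s
    have h1 : {n | ∀ i ∈ s, n ∉ A i} ∈ (hyperfilter ℕ : Filter ℕ) := by
      have : {n | ∀ i ∈ s, n ∉ A i} = ⋂ i ∈ s, (A i)ᶜ := by ext n; simp
      rw [this, Filter.biInter_finset_mem]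
      intro i _
      exact Ultrafilter.compl_mem_iff_notMem.2 (hA i)
    exact fun hf => (Filter.notMem_hyperfilter_of_finite hf) h1
  · intro N hN
    obtain ⟨d, hdD, hd⟩ := hdom (fun n => N (n+1))
    obtain ⟨m, hm⟩ := eventually_atTop.1 hd
    obtain ⟨e, he⟩ := hA2 d
    refine ⟨⟨d, hdD⟩, Set.infinite_of_forall_exists_gt fun a => ?_⟩
    have hPid := (hPm d).id_le (2*(a+m+1)+e)
    simp only [id] at hPid
    refine ⟨P d (2*(a+m+1)+e), ?_, by omega⟩
    intro n h1 h2
    apply he (a+m+1) n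
    · have := hN.id_le (P d (2*(a+m+1)+e))
      simp only [id] at this
      omega
    · have h3 := hm (P d (2*(a+m+1)+e)) (by omega)
      rw [hP]
      omega


/-- next position carrying the value true -/
theorem next_exists (y : ℕ → Bool) : ∃ f : ℕ → ℕ, Monotone f ∧ ∀ n m, n ≤ m → (∀ i, n ≤ i → i < m → y i = false) →
    y m = true → m ≤ f n := by
  classical
  refine ⟨fun n => if h : ∃ m, n ≤ m ∧ y m = true then Nat.find h else n, ?_, ?_⟩
  · intro a b hab
    simp only
    by_cases hb : ∃ m, b ≤ m ∧ y m = true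
    · have ha : ∃ m, a ≤ m ∧ y m = true := by
        obtain ⟨m, h1, h2⟩ := hb
        exact ⟨m, by omega, h2⟩
      rw [dif_pos ha, dif_pos hb]
      apply Nat.find_min'
      exact ⟨hab.trans (Nat.find_spec hb).1, (Nat.find_spec hb).2⟩
    · rw [dif_neg hb]
      by_cases ha : ∃ m, a ≤ m ∧ y m = true
      · rw [dif_pos ha]
        by_contra hcon
        push Not at hcon
        exact hb ⟨Nat.find ha, hcon.le, (Nat.find_spec ha).2⟩
      · rw [dif_neg ha]; exact hab
  · intro n m hnm h1 h2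
    have ha : ∃ m, n ≤ m ∧ y m = true := ⟨m, hnm, h2⟩
    simp only
    rw [dif_pos ha]
    by_contra hcon
    push Not at hcon
    have h3 := Nat.find_spec ha
    rw [h1 _ h3.1 hcon] at h3
    simp at h3

theorem fam_case2 (Y : Set (ℕ → Bool)) (hY : ¬ IsMeagre Y) (hinf : Infinite Y)
    (hnd : ∀ D : Set (ℕ → ℕ), Cardinal.mk D ≤ Cardinal.mk Y →
      ∃ g : ℕ → ℕ, ∀ d ∈ D, ¬ ∀ᶠ n in atTop, g n ≤ d n) :
    ∃ (ι : Type) (A : ι → Set ℕ), Cardinal.mk ι ≤ Cardinal.mk Y ∧
      (∀ s : Finset ι, {n | ∀ i ∈ s, n ∉ A i}.Infinite) ∧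
      (∀ N : ℕ → ℕ, StrictMono N → ∃ i, {k | ∀ n, N k ≤ n → n < N (k+1) → n ∈ A i}.Infinite) := by
  choose F hFm hF using next_exists
  let B : Finset Y → ℕ → ℕ := fun s n => s.sup (fun y => F y n)
  have hB : Cardinal.mk (Set.range B) ≤ Cardinal.mk Y := by
    refine Cardinal.mk_range_le.trans ?_
    rw [Cardinal.mk_finset_of_infinite]
  obtain ⟨g, hg⟩ := hnd _ hB
  refine ⟨Finset Y, fun s => {n | g n ≤ B s n}, ?_, ?_, ?_⟩
  · rw [Cardinal.mk_finset_of_infinite]
  · classical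
    intro s
    have h1 := hg (B (s.biUnion id)) ⟨_, rfl⟩
    rw [Filter.not_eventually, Nat.frequently_atTop_iff_infinite] at h1
    refine h1.mono ?_
    intro n hn i hi hcon
    apply hn
    refine le_trans hcon ?_
    exact Finset.sup_mono (f := fun (y : Y) => F y n) (Finset.subset_biUnion_of_mem id hi)
  · intro N hN
    let h : ℕ → ℕ := fun k => (Finset.range (N (k+1))).sup g
    obtain ⟨Q, hQ0, hQ⟩ : ∃ Q : ℕ → ℕ, Q 0 = 0 ∧ ∀ k, Q (k+1) = max (h (Q k)) (Q k) + 1 :=
      ⟨fun k => Nat.rec 0 (fun _ r => max (h r) r + 1) k, rfl, fun _ => rfl⟩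
    have hQm : StrictMono Q := strictMono_nat_of_lt_succ fun k => by rw [hQ]; omega
    have hid : ∀ N, {n : ℕ | id n < N}.Finite := fun N => Set.finite_lt_nat N
    classical
    let w : ℕ → Bool := fun n => decide (∃ k, n + 1 = Q (k+1))
    have hcom := comeagre_match hid Q hQm w Set.univ Set.infinite_univ
    have hYn : ∃ y ∈ Y, {k ∈ (Set.univ : Set ℕ) | ∀ n, Q k ≤ id n → id n < Q (k+1) → y n = w n}.Infinite := by
      by_contra hcon
      push Not at hcon
      apply hY
      refine mem_of_superset hcom ?_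
      intro y hy hyY
      exact hy (hcon y hyY)
    obtain ⟨y, hyY, hy⟩ := hYn
    refine ⟨{⟨y, hyY⟩}, ?_⟩
    have hinj : Set.InjOn Q {k ∈ (Set.univ : Set ℕ) | ∀ n, Q k ≤ id n → id n < Q (k+1) → y n = w n} := hQm.injective.injOn
    refine (hy.image hinj).mono ?_
    rintro _ ⟨k, ⟨-, hk⟩, rfl⟩ n h1 h2
    simp only [id] at hk
    have hQk : Q k ≤ Q (k+1) - 1 := by
      have := hQ k
      omega
    have h3 : Q (k+1) - 1 ≤ F y (Q k) := by
      apply hF y _ _ hQk
      · intro i hi1 hi2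
        rw [hk i hi1 (by omega)]
        simp only [w, decide_eq_false_iff_not, not_exists]
        intro l hl
        rcases lt_trichotomy l k with h | h | h
        · have := hQm.monotone (show l + 1 ≤ k by omega)
          omega
        · subst h; omega
        · have := hQm.monotone (show k + 1 ≤ l + 1 by omega)
          omega
      · rw [hk _ hQk (by have := hQ k; omega)]
        simp only [w, decide_eq_true_eq]
        exact ⟨k, by have := hQ k; omega⟩
    have h4 : g n ≤ h (Q k) := Finset.le_sup (f := g) (Finset.mem_range.2 h2)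
    have h5 : h (Q k) ≤ Q (k+1) - 1 := by rw [hQ]; omega
    have h6 : F y (Q k) ≤ F y n := by
      apply hFm y
      have := hN.id_le (Q k)
      simp only [id] at this
      omega
    simp only [B, Finset.sup_singleton, Set.mem_ofPred_eq]
    omega

theorem countable_meagre {Y : Set (ℕ → Bool)} (hY : Y.Countable) : IsMeagre Y := by
  rw [← Set.biUnion_of_singleton Y]
  refine isMeagre_biUnion hY fun y _ => ?_
  have hid : ∀ N, {n : ℕ | id n < N}.Finite := fun N => Set.finite_lt_nat N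
  have := comeagre_match hid id strictMono_id (fun n => !(y n)) Set.univ Set.infinite_univ
  refine mem_of_superset this ?_
  intro z hz hzy
  simp only [Set.mem_singleton_iff] at hzy
  subst hzy
  obtain ⟨k, -, hk⟩ := hz.nonempty
  have := hk k (by simp) (by simp)
  simp at this

theorem fam (Y : Set (ℕ → Bool)) (hY : ¬ IsMeagre Y) :
    ∃ (ι : Type) (A : ι → Set ℕ), Cardinal.mk ι ≤ Cardinal.mk Y ∧
      (∀ s : Finset ι, {n | ∀ i ∈ s, n ∉ A i}.Infinite) ∧
      (∀ N : ℕ → ℕ, StrictMono N → ∃ i, {k | ∀ n, N k ≤ n → n < N (k+1) → n ∈ A i}.Infinite) := by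
  have hinf : Infinite Y := by
    rw [Set.infinite_coe_iff]
    exact fun hf => hY (countable_meagre hf.countable)
  by_cases h : ∃ D : Set (ℕ → ℕ), Cardinal.mk D ≤ Cardinal.mk Y ∧ ∀ f : ℕ → ℕ, ∃ d ∈ D, ∀ᶠ n in atTop, f n ≤ d n
  · obtain ⟨D, h1, h2⟩ := h
    exact fam_case1 D h1 h2
  · refine fam_case2 Y hY hinf fun D hD => ?_
    by_contra hcon
    exact h ⟨D, hD, fun f => by
      by_contra hf
      exact hcon ⟨f, fun d hd hh => hf ⟨d, hd, hh⟩⟩⟩


/-- index type of the coordinates -/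
abbrev T : Type := Σ m : ℕ, Finset (Fin m → Bool)

theorem finite_T (N : ℕ) : {t : T | t.1 < N}.Finite := by
  have : {t : T | t.1 < N} ⊆ ⋃ m ∈ Finset.range N, Set.range (Sigma.mk (β := fun m => Finset (Fin m → Bool)) m) := by
    rintro ⟨m, p⟩ h
    simp only [Set.mem_iUnion, Finset.mem_range]
    exact ⟨m, h, p, rfl⟩
  refine Set.Finite.subset ?_ this
  exact Set.Finite.biUnion (Finset.finite_toSet _) fun m _ => Set.finite_range _

theorem exists_T_equiv : Nonempty (ℕ ≃ T) := by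
  have hinf : Infinite T := Infinite.of_injective (fun m : ℕ => (⟨m, ∅⟩ : T)) (fun a b h => by
    simpa using congrArg Sigma.fst h)
  obtain ⟨h⟩ := nonempty_denumerable T
  exact ⟨(Denumerable.eqv T).symm⟩

theorem sep {P : Type} (c : P → ℕ → Bool) (hc : Function.Injective c) (s : Finset P) :
    ∃ M : ℕ, ∀ m ≥ M, ∀ p ∈ s, ∀ q ∈ s, (∀ j : Fin m, c p j = c q j) → p = q := by
  classical
  have h1 : ∀ p q : P, ∃ M : ℕ, ∀ m ≥ M, (∀ j : Fin m, c p j = c q j) → p = q := by
    intro p q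
    by_cases h : p = q
    · exact ⟨0, fun _ _ _ => h⟩
    · have : c p ≠ c q := fun h' => h (hc h')
      obtain ⟨n, hn⟩ := Function.ne_iff.1 this
      exact ⟨n+1, fun m hm hj => absurd (hj ⟨n, by omega⟩) hn⟩
  choose M hM using h1
  refine ⟨s.sup fun p => s.sup fun q => M p q, fun m hm p hp q hq h => hM p q m ?_ h⟩
  have h2 : M p q ≤ s.sup fun q => M p q := Finset.le_sup (f := fun q => M p q) hq
  have h3 : (s.sup fun q => M p q) ≤ s.sup fun p => s.sup fun q => M p q :=
    Finset.le_sup (f := fun p => s.sup fun q => M p q) hp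
  omega

theorem main (Y : Set (ℕ → Bool)) (hY : ¬ IsMeagre Y) :
    ∃ (P : Type) (x : P → ℕ → Bool), Cardinal.mk P ≤ Cardinal.mk Y ∧ ¬ IsMeagre (Set.range x) ∧
      ∀ (s : Finset P) (ε : P → Bool), {n | ∀ p ∈ s, x p n = ε p}.Infinite := by
  classical
  have hinf : Infinite Y := by
    rw [Set.infinite_coe_iff]
    exact fun hf => hY (countable_meagre hf.countable)
  obtain ⟨ι, A, hι, hA1, hA2⟩ := fam Y hY
  have hcard : Cardinal.mk (ι × Y) ≤ Cardinal.mk Y := by
    rw [Cardinal.mk_prod, Cardinal.lift_id, Cardinal.lift_id]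
    calc Cardinal.mk ι * Cardinal.mk Y ≤ Cardinal.mk Y * Cardinal.mk Y := mul_le_mul_left hι _
      _ = Cardinal.mk Y := Cardinal.mul_eq_self (Cardinal.aleph0_le_mk Y)
  have hcard2 : Cardinal.mk (ι × Y) ≤ Cardinal.mk (ℕ → Bool) := hcard.trans (Cardinal.mk_set_le Y)
  obtain ⟨c⟩ := Cardinal.le_def _ _ |>.1 hcard2
  obtain ⟨e⟩ := exists_T_equiv
  have hblk : ∀ N, {n | (e n).1 < N}.Finite := fun N =>
    (finite_T N).preimage e.injective.injOn
  let x : ι × Y → ℕ → Bool := fun p n =>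
    if (e n).1 ∈ A p.1 then (p.2 : ℕ → Bool) n
    else decide ((fun j : Fin (e n).1 => c p j) ∈ (e n).2)
  refine ⟨ι × Y, x, hcard, ?_, ?_⟩
  · intro hM
    obtain ⟨N, w, hN, hw⟩ := meagre_char hblk hM
    obtain ⟨i, hi⟩ := hA2 N hN
    have hcom := comeagre_match hblk N hN w _ hi
    have hYn : ∃ y ∈ Y, {k ∈ {k | ∀ n, N k ≤ n → n < N (k+1) → n ∈ A i} | ∀ n, N k ≤ (e n).1 → (e n).1 < N (k+1) → y n = w n}.Infinite := by
      by_contra hcon
      apply hY
      refine mem_of_superset hcom ?_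
      intro y hy hyY
      exact hcon ⟨y, hyY, hy⟩
    obtain ⟨y, hyY, hy⟩ := hYn
    obtain ⟨K, hK⟩ := hw (x (i, ⟨y, hyY⟩)) ⟨_, rfl⟩
    obtain ⟨k, ⟨hk1, hk2⟩, hk3⟩ := hy.exists_gt K
    obtain ⟨n, h1, h2, h3⟩ := hK k hk3.le
    apply h3
    simp only [x]
    rw [if_pos (hk1 _ h1 h2)]
    exact hk2 n h1 h2
  · intro s ε
    obtain ⟨M, hM⟩ := sep (fun p => c p) c.injective s
    have hinf2 := hA1 (s.image Prod.fst)
    have hinf3 : ({n | ∀ i ∈ s.image Prod.fst, n ∉ A i} ∩ {m | M ≤ m}).Infinite := by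
      refine Set.infinite_of_forall_exists_gt fun a => ?_
      obtain ⟨b, hb, hab⟩ := hinf2.exists_gt (max a M)
      exact ⟨b, ⟨hb, by simp only [Set.mem_ofPred_eq]; omega⟩, by omega⟩
    let f : ℕ → ℕ := fun m => e.symm ⟨m, (s.filter fun p => ε p = true).image (fun p => fun j : Fin m => c p j)⟩
    have hf : Function.Injective f := by
      intro a b hab
      have := e.symm.injective hab
      exact congrArg Sigma.fst this
    refine (hinf3.image hf.injOn).mono ?_
    rintro _ ⟨m, ⟨hm1, hm2⟩, rfl⟩ p hp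
    have h1 : (e (f m)).1 = m := by simp [f]
    have h2 : (e (f m)).1 ∉ A p.1 := by
      rw [h1]
      exact hm1 p.1 (Finset.mem_image_of_mem _ hp)
    simp only [x]
    rw [if_neg h2]
    have h3 : e (f m) = ⟨m, (s.filter fun p => ε p = true).image (fun p => fun j : Fin m => c p j)⟩ := by
      simp [f]
    have h4 : ((fun j : Fin (e (f m)).1 => c p j) ∈ (e (f m)).2) ↔ ε p = true := by
      rw [h3]
      simp only [Finset.mem_image, Finset.mem_filter]
      constructor
      · rintro ⟨q, ⟨hq1, hq2⟩, hq3⟩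
        have := hM m hm2 q hq1 p hp (fun j => congrFun hq3 j)
        rw [← this]; exact hq2
      · intro h
        exact ⟨p, ⟨hp, h⟩, rfl⟩
    by_cases h5 : ε p = true
    · rw [h5, decide_eq_true_eq]; exact h4.2 h5
    · have h6 : ε p = false := by simpa using h5
      rw [h6, decide_eq_false_iff_not]
      exact fun h => h5 (h4.1 h)


end Pool.Agent.Helper63.NonMeager
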