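import Mathlib
import Pool.Agent.Helper63.IMeagerDefs
import Pool.Agent.Helper63.NonMeager

namespace Pool.Agent.Helper63.IMeager

theorem exists_family (Y : Set (ℕ → Bool)) (hY : ¬ IsMeagre Y) :
    ∃ A : Set (Set ℕ), IsIndependentFamily A ∧ ¬ IsMeagre (charFun '' A) ∧
      Cardinal.mk A ≤ Cardinal.mk Y := by
  classical
  obtain ⟨P, x, hP, hx, hind⟩ := Pool.Agent.Helper63.NonMeager.main Y hY
  let a : P → Set ℕ := fun p => {n | x p n = true}
  have hax : ∀ p, charFun (a p) = x p := by
    intro p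
    funext n
    simp only [charFun, a, Set.mem_ofPred_eq]
    by_cases h : x p n = true
    · simp [h]
    · have h' : x p n = false := by simpa using h
      simp [h']
  refine ⟨Set.range a, ⟨?_, ?_⟩, ?_, Cardinal.mk_range_le.trans hP⟩
  · rintro _ ⟨p, rfl⟩
    refine (hind {p} (fun _ => true)).mono ?_
    intro n hn
    exact hn p (by simp)
  · intro F G hF hG hFf hGf hdis hFG
    have hPne : Nonempty P := by
      obtain ⟨b, hb | hb⟩ := hFG
      · exact ⟨(hF hb).choose⟩
      · exact ⟨(hG hb).choose⟩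
    have h1 : ∀ b ∈ Set.range a, ∃ p, a p = b := fun b hb => hb
    choose! q hq using h1
    have hinf := hind ((hFf.toFinset ∪ hGf.toFinset).image q) (fun p => decide (a p ∈ F))
    refine hinf.mono ?_
    intro n hn
    refine ⟨?_, ?_⟩
    · intro b hb
      have h2 := hn (q b) (Finset.mem_image_of_mem _ (by simp [hb]))
      have h3 : a (q b) = b := hq b (hF hb)
      rw [h3] at h2
      rw [← h3]
      simp only [a, Set.mem_ofPred_eq]
      rw [h2]
      simp [hb]
    · rintro ⟨b, hb, hnb⟩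
      have h2 := hn (q b) (Finset.mem_image_of_mem _ (by simp [hb]))
      have h3 : a (q b) = b := hq b (hG hb)
      have h4 : b ∉ F := fun h => Set.disjoint_left.1 hdis h hb
      rw [h3] at h2
      rw [← h3] at hnb
      simp only [a, Set.mem_ofPred_eq] at hnb
      rw [h2] at hnb
      simp [h4] at hnb
  · have : charFun '' Set.range a = Set.range x := by
      rw [← Set.range_comp]
      congr 1
      funext p
      exact hax p
    rw [this]
    exact hx

/-- In ZFC, the least size of a nonmeager independent family equals `non(meager)`. -/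
theorem iMeager_eq : iMeager = nonMeager := by
  have hne : {κ | ∃ S : Set (ℕ → Bool), ¬ IsMeagre S ∧ Cardinal.mk S = κ}.Nonempty :=
    ⟨_, Set.univ, not_isMeagre_of_isOpen isOpen_univ Set.univ_nonempty, rfl⟩
  obtain ⟨Y, hY, hYc⟩ : ∃ S : Set (ℕ → Bool), ¬ IsMeagre S ∧ Cardinal.mk S = nonMeager :=
    csInf_mem hne
  obtain ⟨A, hA1, hA2, hA3⟩ := exists_family Y hY
  have hne2 : {κ | ∃ A : Set (Set ℕ), IsIndependentFamily A ∧ ¬ IsMeagre (charFun '' A) ∧
    Cardinal.mk A = κ}.Nonempty := ⟨_, A, hA1, hA2, rfl⟩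
  apply le_antisymm
  · calc iMeager ≤ Cardinal.mk A := csInf_le' ⟨A, hA1, hA2, rfl⟩
      _ ≤ Cardinal.mk Y := hA3
      _ = nonMeager := hYc
  · obtain ⟨B, hB1, hB2, hB3⟩ : ∃ A : Set (Set ℕ), IsIndependentFamily A ∧
        ¬ IsMeagre (charFun '' A) ∧ Cardinal.mk A = iMeager := csInf_mem hne2
    calc nonMeager ≤ Cardinal.mk (charFun '' B : Set (ℕ → Bool)) := csInf_le' ⟨_, hB2, rfl⟩
      _ ≤ Cardinal.mk B := Cardinal.mk_image_le
      _ = iMeager := hB3

end Pool.Agent.Helper63.IMeager
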